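import Mathlib

/-!
# From distributions on fractional signings to distributions on signings
-/

set_option autoImplicit false

namespace Pool.Agent.TH288.BF

open Finset

variable {m n : ℕ}

/-- A distribution on fractional signings gives a distribution on signings. -/
theorem signs_of_frac (a : Fin m → Fin n → ℝ) (B ε : ℝ) (K : ℕ)
    (w : Fin K → ℝ) (y : Fin K → Fin n → ℝ) (hw : ∀ k, 0 ≤ w k)
    (hB : ∀ k i, |∑ j, a i j * y k j| ≤ B)
    (hε : ∀ j, ∑ k ∈ univ.filter (fun k => ¬ (y k j = 1 ∨ y k j = -1)), w k ≤ ε) :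
    ∃ x : Fin K → Fin n → ℝ, (∀ k j, x k j = 1 ∨ x k j = -1) ∧
      ∀ i, ∑ k ∈ univ.filter (fun k => B < |∑ j, a i j * x k j|), w k ≤
        ε * (univ.filter (fun j => a i j ≠ 0)).card := by
  classical
  let x : Fin K → Fin n → ℝ := fun k j => if y k j = -1 then -1 else 1
  have hx : ∀ k j, x k j = 1 ∨ x k j = -1 := by
    intro k j
    simp only [x]
    split_ifs
    · exact Or.inr rfl
    · exact Or.inl rfl
  have hxy : ∀ k j, (y k j = 1 ∨ y k j = -1) → x k j = y k j := by
    intro k j h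
    simp only [x]
    rcases h with h | h
    · rw [h, if_neg (by norm_num)]
    · rw [h, if_pos rfl]
  refine ⟨x, hx, fun i => ?_⟩
  set N := univ.filter (fun j => a i j ≠ 0) with hN
  have hex : ∀ k, B < |∑ j, a i j * x k j| → ∃ j ∈ N, ¬ (y k j = 1 ∨ y k j = -1) := by
    intro k hk
    by_contra hcon
    have hcon' : ∀ j ∈ N, (y k j = 1 ∨ y k j = -1) := by
      intro j hj
      by_contra h
      exact hcon ⟨j, hj, h⟩
    have e : ∑ j, a i j * x k j = ∑ j, a i j * y k j := by
      refine sum_congr rfl fun j _ => ?_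
      by_cases hj : a i j = 0
      · rw [hj, zero_mul, zero_mul]
      · rw [hxy k j (hcon' j (mem_filter.2 ⟨mem_univ _, hj⟩))]
    rw [e] at hk
    exact absurd (hB k i) (not_le.2 hk)
  have hs : ∀ k, (if B < |∑ j, a i j * x k j| then w k else 0) ≤
      ∑ j ∈ N, if ¬ (y k j = 1 ∨ y k j = -1) then w k else 0 := by
    intro k
    have hnn : ∀ j ∈ N, 0 ≤ if ¬ (y k j = 1 ∨ y k j = -1) then w k else 0 := by
      intro j _
      split_ifs
      · exact le_rfl
      · exact hw k
    split_ifs with hk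
    · obtain ⟨j, hj, hj'⟩ := hex k hk
      have h5 := Finset.single_le_sum hnn hj
      rw [if_pos hj'] at h5
      exact h5
    · exact sum_nonneg hnn
  calc ∑ k ∈ univ.filter (fun k => B < |∑ j, a i j * x k j|), w k
      = ∑ k, (if B < |∑ j, a i j * x k j| then w k else 0) := by rw [Finset.sum_filter]
    _ ≤ ∑ k, ∑ j ∈ N, (if ¬ (y k j = 1 ∨ y k j = -1) then w k else 0) :=
        sum_le_sum fun k _ => hs k
    _ = ∑ j ∈ N, ∑ k ∈ univ.filter (fun k => ¬ (y k j = 1 ∨ y k j = -1)), w k := by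
        rw [Finset.sum_comm]
        exact sum_congr rfl fun j _ => by rw [Finset.sum_filter]
    _ ≤ ∑ j ∈ N, ε := sum_le_sum fun j _ => hε j
    _ = ε * N.card := by rw [sum_const, nsmul_eq_mul]; ring

/-- Choice of one signing: the weight of the bad rows is at most its mean. -/
theorem one_of_signs (a : Fin m → Fin n → ℝ) (B ε : ℝ) (K : ℕ)
    (w : Fin K → ℝ) (x : Fin K → Fin n → ℝ) (hw : ∀ k, 0 ≤ w k) (hw1 : ∑ k, w k = 1)
    (N : Fin m → ℝ)
    (hε : ∀ i, ∑ k ∈ univ.filter (fun k => B < |∑ j, a i j * x k j|), w k ≤ ε * N i)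
    (p : Fin m → ℝ) (hp : ∀ i, 0 ≤ p i) :
    ∃ k, ∑ i ∈ univ.filter (fun i => B < |∑ j, a i j * x k j|), p i ≤
      ε * ∑ i, p i * N i := by
  classical
  by_contra hcon
  push Not at hcon
  set M : ℝ := ε * ∑ i, p i * N i with hM
  have hne : ∃ k, 0 < w k := by
    by_contra h
    push Not at h
    have : ∑ k, w k ≤ 0 := sum_nonpos fun k _ => h k
    linarith
  obtain ⟨k0, hk0⟩ := hne
  have h1 : M < ∑ k, w k * ∑ i ∈ univ.filter (fun i => B < |∑ j, a i j * x k j|), p i := by
    calc M = ∑ k, w k * M := by rw [← Finset.sum_mul, hw1, one_mul]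
      _ < _ := by
          apply Finset.sum_lt_sum
          · intro k _
            exact mul_le_mul_of_nonneg_left (hcon k).le (hw k)
          · exact ⟨k0, mem_univ _, mul_lt_mul_of_pos_left (hcon k0) hk0⟩
  have h2 : ∑ k, w k * ∑ i ∈ univ.filter (fun i => B < |∑ j, a i j * x k j|), p i =
      ∑ i, p i * ∑ k ∈ univ.filter (fun k => B < |∑ j, a i j * x k j|), w k := by
    simp only [Finset.sum_filter, Finset.mul_sum]
    rw [Finset.sum_comm]
    refine sum_congr rfl fun i _ => sum_congr rfl fun k _ => ?_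
    split_ifs <;> ring
  have h3 : ∑ i, p i * ∑ k ∈ univ.filter (fun k => B < |∑ j, a i j * x k j|), w k ≤ M := by
    rw [hM, Finset.mul_sum]
    refine sum_le_sum fun i _ => ?_
    calc p i * ∑ k ∈ univ.filter (fun k => B < |∑ j, a i j * x k j|), w k
        ≤ p i * (ε * N i) := mul_le_mul_of_nonneg_left (hε i) (hp i)
      _ = ε * (p i * N i) := by ring
  linarith

end Pool.Agent.TH288.BF
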