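import Mathlib
import Pool.Agent.H167R2.BFLin

/-!
# From fractional colourings to colourings
-/

set_option autoImplicit false

namespace Pool.Agent.TH288.BF

open Finset

variable {m n : ℕ}

/-- the sum over a set as a linear functional -/
noncomputable def fun1 (A : Finset (Fin n)) : (Fin n → ℝ) →ₗ[ℝ] ℝ :=
  ∑ j ∈ A, LinearMap.proj (R := ℝ) (φ := fun _ : Fin n => ℝ) j

theorem fun1_apply (A : Finset (Fin n)) (z : Fin n → ℝ) : fun1 A z = ∑ j ∈ A, z j := by
  unfold fun1
  simp [LinearMap.sum_apply]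

/-- Beck-Fiala rounding of a fractional colouring. -/
theorem bf_round (S : Fin m → Finset (Fin n)) (t : ℕ)
    (hdeg : ∀ j, (univ.filter (fun i => j ∈ S i)).card ≤ t) :
    ∀ (N : ℕ) (y : Fin n → ℝ), (∀ j, |y j| ≤ 1) →
      (univ.filter (fun j => |y j| ≠ 1)).card ≤ N →
      ∃ χ : Fin n → ℝ, (∀ j, χ j = 1 ∨ χ j = -1) ∧ (∀ j, |y j| = 1 → χ j = y j) ∧
        ∀ i, |∑ j ∈ S i, (χ j - y j)| ≤ 2 * t := by
  classical
  intro N
  induction N with
  | zero =>
    intro y hy hc
    have h0 : ∀ j, |y j| = 1 := by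
      intro j
      by_contra h
      have : j ∈ univ.filter (fun j => |y j| ≠ 1) := by simp [h]
      have := card_pos.2 ⟨j, this⟩
      omega
    refine ⟨y, fun j => ?_, fun j _ => rfl, fun i => ?_⟩
    · rcases abs_eq (zero_le_one) |>.1 (h0 j) with h | h
      · exact Or.inl h
      · exact Or.inr h
    · simp
  | succ N ih =>
    intro y hy hc
    set F := univ.filter (fun j => |y j| ≠ 1) with hF
    by_cases hcN : F.card ≤ N
    · exact ih y hy hcN
    have hFpos : 0 < F.card := by omega
    set EJ := univ.filter (fun i => t < (S i ∩ F).card) with hEJ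
    have hcard : EJ.card < F.card := by
      have h1 : ∑ i ∈ EJ, (S i ∩ F).card ≤ F.card * t := by
        have h2 : ∀ i, (S i ∩ F).card = ∑ j ∈ F, if j ∈ S i then 1 else 0 := by
          intro i
          rw [Finset.sum_boole, Finset.inter_comm, Finset.filter_mem_eq_inter]
          simp
        simp only [h2]
        rw [Finset.sum_comm]
        calc ∑ j ∈ F, ∑ i ∈ EJ, (if j ∈ S i then 1 else 0) ≤ ∑ j ∈ F, t := by
              refine Finset.sum_le_sum fun j _ => ?_
              rw [Finset.sum_boole]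
              simp only [Nat.cast_id]
              exact (card_le_card (filter_subset_filter _ (subset_univ EJ))).trans (hdeg j)
          _ = F.card * t := by rw [sum_const, smul_eq_mul]
      have h3 : EJ.card * (t + 1) ≤ ∑ i ∈ EJ, (S i ∩ F).card := by
        rw [← smul_eq_mul, ← sum_const]
        exact sum_le_sum fun i hi => (mem_filter.1 hi).2
      by_contra hcon
      push Not at hcon
      have h4 : F.card * (t + 1) ≤ EJ.card * (t + 1) := Nat.mul_le_mul_right _ hcon
      have h5 : F.card * (t + 1) ≤ F.card * t := h4.trans (h3.trans h1)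
      have h6 : F.card * (t + 1) = F.card * t + F.card := by ring
      omega
    obtain ⟨z, hz0, ⟨v, hvF, hvz⟩, hzE⟩ := H167BF.exists_direction F EJ (fun i => fun1 (S i)) hcard
    -- move until a coordinate is a sign
    obtain ⟨s, hs0, hs1, ⟨⟨j0, b0⟩, hk0, hk1, hk2⟩⟩ := H167BF.ray_lemma
      (F ×ˢ (univ : Finset Bool)) (fun k => if k.2 then y k.1 else -y k.1)
      (fun k => if k.2 then z k.1 else -z k.1) (fun _ => 1)
      (by
        rintro ⟨j, b⟩ _
        have h1 := abs_le.1 (hy j)
        cases b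
        · simp only [Bool.false_eq_true, if_false]; linarith [h1.1]
        · simp only [if_true]; exact h1.2)
      (by
        rcases lt_or_gt_of_ne hvz with h | h
        · exact ⟨(v, false), mem_product.2 ⟨hvF, mem_univ _⟩, by simpa using h⟩
        · exact ⟨(v, true), mem_product.2 ⟨hvF, mem_univ _⟩, by simpa using h⟩)
    set y' : Fin n → ℝ := fun j => y j + s * z j with hy'
    have hoff : ∀ j, j ∉ F → y' j = y j := by
      intro j hj
      simp [hy', hz0 j hj]
    have hy'1 : ∀ j, |y' j| ≤ 1 := by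
      intro j
      by_cases hj : j ∈ F
      · have h1 := hs1 (j, true) (mem_product.2 ⟨hj, mem_univ _⟩)
        have h2 := hs1 (j, false) (mem_product.2 ⟨hj, mem_univ _⟩)
        simp only [if_true] at h1
        simp only [Bool.false_eq_true, if_false] at h2
        rw [abs_le]
        constructor
        · simp only [hy']; linarith
        · simp only [hy']; exact h1
      · rw [hoff j hj]; exact hy j
    have hj0F : j0 ∈ F := (mem_product.1 hk0).1
    have hj0 : |y' j0| = 1 := by
      simp only [hy']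
      cases b0
      · simp only [Bool.false_eq_true, if_false] at hk2
        have : y j0 + s * z j0 = -1 := by linarith
        rw [this]; norm_num
      · simp only [if_true] at hk2
        rw [hk2]; norm_num
    have hsub : univ.filter (fun j => |y' j| ≠ 1) ⊆ F.erase j0 := by
      intro j hj
      have hj1 := (mem_filter.1 hj).2
      refine mem_erase.2 ⟨?_, ?_⟩
      · rintro rfl; exact hj1 hj0
      · by_contra hjF
        have h1 : |y j| = 1 := by
          by_contra h
          exact hjF (by simp [hF, h])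
        rw [hoff j hjF] at hj1
        exact hj1 h1
    have hcard' : (univ.filter (fun j => |y' j| ≠ 1)).card ≤ N := by
      have := card_le_card hsub
      rw [card_erase_of_mem hj0F] at this
      omega
    obtain ⟨χ, hχ1, hχ2, hχ3⟩ := ih y' hy'1 hcard'
    have hoffF : ∀ j, j ∉ F → |y j| = 1 := by
      intro j hj
      by_contra h
      exact hj (by simp [hF, h])
    have hχy : ∀ j, |y j| = 1 → χ j = y j := by
      intro j hj
      have hjF : j ∉ F := by simp [hF, hj]
      have h1 := hχ2 j (by rw [hoff j hjF]; exact hj)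
      rw [h1, hoff j hjF]
    refine ⟨χ, hχ1, hχy, fun i => ?_⟩
    by_cases hi : i ∈ EJ
    · have h1 := hzE i hi
      rw [fun1_apply] at h1
      have h2 : ∑ j ∈ S i, (χ j - y j) = ∑ j ∈ S i, (χ j - y' j) := by
        have h3 : ∑ j ∈ S i, (χ j - y j) = ∑ j ∈ S i, (χ j - y' j) + s * ∑ j ∈ S i, z j := by
          rw [Finset.mul_sum, ← Finset.sum_add_distrib]
          refine sum_congr rfl fun j _ => ?_
          simp only [hy']; ring
        rw [h3, h1]; ring
      rw [h2]
      exact hχ3 i
    · have h1 : (S i ∩ F).card ≤ t := by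
        by_contra h
        push Not at h
        exact hi (by simp [hEJ, h])
      have h2 : ∑ j ∈ S i, (χ j - y j) = ∑ j ∈ S i ∩ F, (χ j - y j) := by
        symm
        apply Finset.sum_subset inter_subset_left
        intro j hj hj'
        have hjF : j ∉ F := fun h => hj' (mem_inter.2 ⟨hj, h⟩)
        rw [hχy j (hoffF j hjF)]; ring
      rw [h2]
      calc |∑ j ∈ S i ∩ F, (χ j - y j)| ≤ ∑ j ∈ S i ∩ F, |χ j - y j| :=
            Finset.abs_sum_le_sum_abs _ _
        _ ≤ ∑ j ∈ S i ∩ F, (2 : ℝ) := by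
            refine sum_le_sum fun j _ => ?_
            have h3 := abs_le.1 (hy j)
            rcases hχ1 j with h | h <;> rw [h, abs_le] <;> constructor <;> linarith
        _ = ((S i ∩ F).card : ℝ) * 2 := by rw [sum_const, nsmul_eq_mul]
        _ ≤ 2 * t := by
            have : ((S i ∩ F).card : ℝ) ≤ t := by exact_mod_cast h1
            linarith

/-- A distribution on fractional colourings gives a distribution on colourings. -/
theorem full_of_frac (S : Fin m → Finset (Fin n)) (t : ℕ)
    (hdeg : ∀ j, (univ.filter (fun i => j ∈ S i)).card ≤ t) (B ε : ℝ) (K : ℕ)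
    (w : Fin K → ℝ) (y : Fin K → Fin n → ℝ) (hw : ∀ k, 0 ≤ w k)
    (hy : ∀ k j, -1 ≤ y k j ∧ y k j ≤ 1) (hB : ∀ k i, |∑ j ∈ S i, y k j| ≤ B)
    (hε : ∀ j, ∑ k ∈ univ.filter (fun k => ¬ (y k j = 1 ∨ y k j = -1)), w k ≤ ε) :
    ∃ χ : Fin K → Fin n → ℝ, (∀ k j, χ k j = 1 ∨ χ k j = -1) ∧
      (∀ k i, |∑ j ∈ S i, χ k j| ≤ 2 * t + B) ∧
      ∀ i, ∑ k ∈ univ.filter (fun k => B < |∑ j ∈ S i, χ k j|), w k ≤ ε * (S i).card := by
  classical
  have hr : ∀ k, ∃ χ : Fin n → ℝ, (∀ j, χ j = 1 ∨ χ j = -1) ∧ (∀ j, |y k j| = 1 → χ j = y k j) ∧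
      ∀ i, |∑ j ∈ S i, (χ j - y k j)| ≤ 2 * t := fun k =>
    bf_round S t hdeg _ (y k) (fun j => abs_le.2 (hy k j)) le_rfl
  choose χ h1 h2 h3 using hr
  refine ⟨χ, h1, fun k i => ?_, fun i => ?_⟩
  · have e : ∑ j ∈ S i, χ k j = ∑ j ∈ S i, (χ k j - y k j) + ∑ j ∈ S i, y k j := by
      rw [← Finset.sum_add_distrib]
      exact sum_congr rfl fun j _ => by ring
    rw [e]
    exact (abs_add_le _ _).trans (add_le_add (h3 k i) (hB k i))
  · have hex : ∀ k, B < |∑ j ∈ S i, χ k j| → ∃ j ∈ S i, ¬ (y k j = 1 ∨ y k j = -1) := by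
      intro k hk
      by_contra hcon
      push Not at hcon
      have e : ∑ j ∈ S i, χ k j = ∑ j ∈ S i, y k j := by
        refine sum_congr rfl fun j hj => h2 k j ?_
        rcases eq_or_ne (y k j) 1 with h | h
        · rw [h]; norm_num
        · have h4 : y k j = -1 := by
            by_contra h5
            exact (hcon j hj).elim (fun h6 => h h6) (fun h6 => h5 h6)
          rw [h4]; norm_num
      rw [e] at hk
      exact absurd (hB k i) (not_le.2 hk)
    have hs : ∀ k, (if B < |∑ j ∈ S i, χ k j| then w k else 0) ≤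
        ∑ j ∈ S i, if ¬ (y k j = 1 ∨ y k j = -1) then w k else 0 := by
      intro k
      have hnn : ∀ j ∈ S i, 0 ≤ if ¬ (y k j = 1 ∨ y k j = -1) then w k else 0 := by
        intro j _
        split_ifs
        · exact le_rfl
        · exact hw k
      split_ifs with hk
      · obtain ⟨j, hj, hj'⟩ := hex k hk
        have h5 := Finset.single_le_sum hnn hj
        rw [if_pos hj'] at h5
        exact h5
      · exact sum_nonneg hnn
    calc ∑ k ∈ univ.filter (fun k => B < |∑ j ∈ S i, χ k j|), w k
        = ∑ k, (if B < |∑ j ∈ S i, χ k j| then w k else 0) := by rw [Finset.sum_filter]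
      _ ≤ ∑ k, ∑ j ∈ S i, (if ¬ (y k j = 1 ∨ y k j = -1) then w k else 0) :=
          sum_le_sum fun k _ => hs k
      _ = ∑ j ∈ S i, ∑ k ∈ univ.filter (fun k => ¬ (y k j = 1 ∨ y k j = -1)), w k := by
          rw [Finset.sum_comm]
          exact sum_congr rfl fun j _ => by rw [Finset.sum_filter]
      _ ≤ ∑ j ∈ S i, ε := sum_le_sum fun j _ => hε j
      _ = ε * (S i).card := by rw [sum_const, nsmul_eq_mul]; ring

/-- Choice of one colouring: the weight of the bad sets is at most its mean. -/
theorem one_of_dist (S : Fin m → Finset (Fin n)) (B ε : ℝ) (K : ℕ)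
    (w : Fin K → ℝ) (χ : Fin K → Fin n → ℝ) (hw : ∀ k, 0 ≤ w k) (hw1 : ∑ k, w k = 1)
    (hε : ∀ i, ∑ k ∈ univ.filter (fun k => B < |∑ j ∈ S i, χ k j|), w k ≤ ε * (S i).card)
    (p : Fin m → ℝ) (hp : ∀ i, 0 ≤ p i) :
    ∃ k, ∑ i ∈ univ.filter (fun i => B < |∑ j ∈ S i, χ k j|), p i ≤
      ε * ∑ i, p i * (S i).card := by
  classical
  by_contra hcon
  push Not at hcon
  set M : ℝ := ε * ∑ i, p i * (S i).card with hM
  have hne : ∃ k, 0 < w k := by
    by_contra h
    push Not at h
    have : ∑ k, w k ≤ 0 := sum_nonpos fun k _ => h k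
    linarith
  obtain ⟨k0, hk0⟩ := hne
  have h1 : M < ∑ k, w k * ∑ i ∈ univ.filter (fun i => B < |∑ j ∈ S i, χ k j|), p i := by
    calc M = ∑ k, w k * M := by rw [← Finset.sum_mul, hw1, one_mul]
      _ < _ := by
          apply Finset.sum_lt_sum
          · intro k _
            exact mul_le_mul_of_nonneg_left (hcon k).le (hw k)
          · exact ⟨k0, mem_univ _, mul_lt_mul_of_pos_left (hcon k0) hk0⟩
  have h2 : ∑ k, w k * ∑ i ∈ univ.filter (fun i => B < |∑ j ∈ S i, χ k j|), p i =
      ∑ i, p i * ∑ k ∈ univ.filter (fun k => B < |∑ j ∈ S i, χ k j|), w k := by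
    simp only [Finset.sum_filter, Finset.mul_sum]
    rw [Finset.sum_comm]
    refine sum_congr rfl fun i _ => sum_congr rfl fun k _ => ?_
    split_ifs <;> ring
  have h3 : ∑ i, p i * ∑ k ∈ univ.filter (fun k => B < |∑ j ∈ S i, χ k j|), w k ≤ M := by
    rw [hM, Finset.mul_sum]
    refine sum_le_sum fun i _ => ?_
    calc p i * ∑ k ∈ univ.filter (fun k => B < |∑ j ∈ S i, χ k j|), w k
        ≤ p i * (ε * (S i).card) := mul_le_mul_of_nonneg_left (hε i) (hp i)
      _ = ε * (p i * (S i).card) := by ring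
  linarith

end Pool.Agent.TH288.BF
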