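import Mathlib
import Pool.Agent.H663R5.BF.Main

/-!
# The number of Boolean functions with a given restriction
-/

set_option autoImplicit false

open Finset

namespace Pool.Agent.TH288.BF

open Pool.Agent.Helper208.Rainbow Pool.Agent.H663R5.BF

theorem card_pat {n : ℕ} (E : Finset (Fin n)) (p : Fin n → Bool) :
    (univ.filter (fun ω : Fin n → Bool => ∀ v ∈ E, ω v = p v)).card * 2 ^ E.card = 2 ^ n := by
  have h1 : (univ.filter (fun ω : Fin n → Bool => ∀ v ∈ E, ω v = p v)) =
      Fintype.piFinset (fun v => if v ∈ E then {p v} else univ) := by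
    ext ω
    simp only [mem_filter, mem_univ, true_and, Fintype.mem_piFinset]
    constructor
    · intro h v
      by_cases hv : v ∈ E
      · simp [hv, h v hv]
      · simp [hv]
    · intro h v hv
      have := h v
      simpa [hv] using this
  rw [h1, Fintype.card_piFinset]
  have h2 : ∀ v : Fin n, (if v ∈ E then ({p v} : Finset Bool) else univ).card =
      if v ∈ E then 1 else 2 := by
    intro v
    split_ifs <;> simp
  simp only [h2]
  have h3 : (2 : ℕ) ^ E.card = ∏ v : Fin n, if v ∈ E then 2 else 1 := by
    rw [Finset.prod_ite_mem, Finset.univ_inter, Finset.prod_const]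
  rw [h3, ← Finset.prod_mul_distrib]
  have h4 : ∀ v : Fin n, (if v ∈ E then 1 else 2) * (if v ∈ E then 2 else 1) = 2 := by
    intro v
    split_ifs <;> rfl
  simp only [h4, Finset.prod_const, Finset.card_univ, Fintype.card_fin]

end Pool.Agent.TH288.BF
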