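import Mathlib
import Pool.Agent.TH288.BF.Col

/-!
# Signed edges of all sizes at least 9 with `∑ 1 / |E|` at most `1` at each point
-/

set_option autoImplicit false

open Finset

namespace Pool.Agent.TH288.BF

open Pool.Agent.Helper208.Rainbow Pool.Agent.H663R5.BF

/-- `exp (1/10) / 2` -/
noncomputable def qq : ℝ := Real.exp (1 / 10) / 2

theorem qq_pos : 0 < qq := by unfold qq; positivity

theorem qq_le : qq ≤ 9 / 10 := by
  have h1 : Real.exp (1 / 10) ≤ 9 / 5 := by
    have h2 : (1 : ℝ) - 1 / 10 ≤ Real.exp (-(1 / 10)) := by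
      have := Real.add_one_le_exp (-(1 / 10) : ℝ)
      linarith
    have h3 : Real.exp (-(1 / 10)) * Real.exp (1 / 10) = 1 := by
      rw [← Real.exp_add]; norm_num
    have h4 : 0 < Real.exp (1 / 10) := Real.exp_pos _
    nlinarith
  unfold qq
  linarith

theorem qq_nine : qq ^ 9 ≤ 2.72 / 512 := by
  unfold qq
  rw [div_pow, ← Real.exp_nat_mul]
  have h1 : Real.exp (((9 : ℕ) : ℝ) * (1 / 10)) ≤ Real.exp 1 :=
    Real.exp_le_exp.2 (by norm_num)
  have h2 := Real.exp_one_lt_d9
  have h3 : (2 : ℝ) ^ 9 = 512 := by norm_num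
  rw [h3]
  apply div_le_div_of_nonneg_right _ (by norm_num)
  linarith

theorem mul_qq (t : ℕ) (ht : 9 ≤ t) : (t : ℝ) * qq ^ t ≤ 9 * qq ^ 9 := by
  induction t, ht using Nat.le_induction with
  | base => norm_num
  | succ t ht ih =>
    refine le_trans ?_ ih
    have h9 : (9 : ℝ) ≤ t := by exact_mod_cast ht
    have h1 := qq_le
    have h2 := qq_pos
    have h3 : 0 < qq ^ t := pow_pos h2 t
    rw [pow_succ]
    push_cast
    have h4 : ((t : ℝ) + 1) * qq ≤ t := by nlinarith
    calc ((t : ℝ) + 1) * (qq ^ t * qq) = (((t : ℝ) + 1) * qq) * qq ^ t := by ring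
      _ ≤ t * qq ^ t := mul_le_mul_of_nonneg_right h4 h3.le

theorem qq_pow (t : ℕ) : qq ^ t * Real.exp (-((t : ℝ) / 10)) = 1 / 2 ^ t := by
  unfold qq
  rw [div_pow, ← Real.exp_nat_mul, div_mul_eq_mul_div, ← Real.exp_add]
  congr 1
  rw [Real.exp_eq_one_iff]
  ring

theorem exp_le_sub (x : ℝ) (h0 : 0 ≤ x) (h1 : x ≤ 1 / 51) : Real.exp (-(1.02 * x)) ≤ 1 - x := by
  have h2 : 1 + 1.02 * x ≤ Real.exp (1.02 * x) := by
    have := Real.add_one_le_exp (1.02 * x)
    linarith
  have h3 : Real.exp (-(1.02 * x)) * Real.exp (1.02 * x) = 1 := by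
    rw [← Real.exp_add]; norm_num
  have h4 : 0 < Real.exp (-(1.02 * x)) := Real.exp_pos _
  have h5 : 1 ≤ (1 - x) * (1 + 1.02 * x) := by nlinarith
  have h6 : (1 - x) * (1 + 1.02 * x) ≤ (1 - x) * Real.exp (1.02 * x) :=
    mul_le_mul_of_nonneg_left h2 (by linarith)
  have h7 : 1 ≤ (1 - x) * Real.exp (1.02 * x) := h5.trans h6
  calc Real.exp (-(1.02 * x)) = Real.exp (-(1.02 * x)) * 1 := (mul_one _).symm
    _ ≤ Real.exp (-(1.02 * x)) * ((1 - x) * Real.exp (1.02 * x)) :=
        mul_le_mul_of_nonneg_left h7 h4.le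
    _ = (1 - x) * (Real.exp (-(1.02 * x)) * Real.exp (1.02 * x)) := by ring
    _ = 1 - x := by rw [h3, mul_one]

theorem pat_asym {m n : ℕ} (P : Finset (Fin m)) (E : Fin m → Finset (Fin n)) (t : Fin m → ℕ)
    (p : Fin m → Fin n → Bool) (ht : ∀ i ∈ P, 9 ≤ t i) (hE : ∀ i ∈ P, (E i).card = t i)
    (hdeg : ∀ v, ∑ j ∈ P.filter (fun j => v ∈ E j), 1 / (t j : ℝ) ≤ 1) :
    ∃ ω : Fin n → Bool, ∀ i ∈ P,
      ¬ ((∀ v ∈ E i, ω v = p i v) ∨ ∀ v ∈ E i, ω v = !p i v) := by
  classical
  let A : Fin m → Finset (Fin n → Bool) := fun i =>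
    univ.filter (fun ω => (∀ v ∈ E i, ω v = p i v) ∨ ∀ v ∈ E i, ω v = !p i v)
  have hA : ∀ i, DepOn (A i) (E i) := by
    intro i ω ω' h
    simp only [A, mem_filter, mem_univ, true_and]
    constructor
    · rintro (h1 | h1)
      · exact Or.inl fun v hv => (h v hv) ▸ h1 v hv
      · exact Or.inr fun v hv => (h v hv) ▸ h1 v hv
    · rintro (h1 | h1)
      · exact Or.inl fun v hv => (h v hv).symm ▸ h1 v hv
      · exact Or.inr fun v hv => (h v hv).symm ▸ h1 v hv
  set x : Fin m → ℝ := fun i => 2 * qq ^ (max 9 (t i)) with hx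
  have hqn := qq_nine
  have hx0 : ∀ i, 0 ≤ x i := fun i => by
    have := pow_pos qq_pos (max 9 (t i))
    simp only [hx]; linarith
  have hxs : ∀ i, x i ≤ 1 / 51 := by
    intro i
    have h1 : qq ^ (max 9 (t i)) ≤ qq ^ 9 :=
      pow_le_pow_of_le_one qq_pos.le (by have := qq_le; linarith) (le_max_left _ _)
    simp only [hx]
    norm_num at hqn ⊢
    linarith
  have hx1 : ∀ i, x i < 1 := fun i => lt_of_le_of_lt (hxs i) (by norm_num)
  have hxP : ∀ i ∈ P, x i = 2 * qq ^ (t i) := by
    intro i hi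
    simp only [hx]
    rw [max_eq_right (ht i hi)]
  obtain ⟨ω, hω⟩ := lll P A E hA x hx0 hx1 (by
    intro i hi
    set N := P.filter (fun j => j ≠ i ∧ ¬ Disjoint (E i) (E j)) with hN
    have hsum : ∑ j ∈ N, x j ≤ (t i : ℝ) * (18 * qq ^ 9) := by
      calc ∑ j ∈ N, x j ≤ ∑ j ∈ N, ∑ v ∈ E i, (if v ∈ E j then x j else 0) := by
            refine sum_le_sum fun j hj => ?_
            rw [hN, mem_filter, not_disjoint_iff] at hj
            obtain ⟨hjP, hji, v, hv1, hv2⟩ := hj
            have h1 : (if v ∈ E j then x j else 0) ≤ ∑ v ∈ E i, (if v ∈ E j then x j else 0) :=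
              Finset.single_le_sum (f := fun v => if v ∈ E j then x j else 0)
                (fun v _ => by split_ifs; exacts [hx0 j, le_rfl]) hv1
            rwa [if_pos hv2] at h1
        _ ≤ ∑ j ∈ P, ∑ v ∈ E i, (if v ∈ E j then x j else 0) := by
            apply Finset.sum_le_sum_of_subset_of_nonneg (filter_subset _ _)
            intro j _ _
            exact sum_nonneg fun v _ => by split_ifs; exacts [hx0 j, le_rfl]
        _ = ∑ v ∈ E i, ∑ j ∈ P.filter (fun j => v ∈ E j), x j := by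
            rw [Finset.sum_comm]
            exact sum_congr rfl fun v _ => by rw [Finset.sum_filter]
        _ ≤ ∑ v ∈ E i, 18 * qq ^ 9 := by
            refine sum_le_sum fun v _ => ?_
            calc ∑ j ∈ P.filter (fun j => v ∈ E j), x j
                ≤ ∑ j ∈ P.filter (fun j => v ∈ E j), (1 / (t j : ℝ)) * (18 * qq ^ 9) := by
                  refine sum_le_sum fun j hj => ?_
                  have hjP : j ∈ P := (mem_filter.1 hj).1
                  have h9 := ht j hjP
                  have htp : (0 : ℝ) < t j := by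
                    have : 0 < t j := by omega
                    exact_mod_cast this
                  have h2 := mul_qq (t j) h9
                  rw [hxP j hjP, one_div, ← div_eq_inv_mul, le_div_iff₀ htp]
                  linarith
              _ = (∑ j ∈ P.filter (fun j => v ∈ E j), 1 / (t j : ℝ)) * (18 * qq ^ 9) := by
                  rw [Finset.sum_mul]
              _ ≤ 1 * (18 * qq ^ 9) := by
                  apply mul_le_mul_of_nonneg_right (hdeg v)
                  have := pow_pos qq_pos 9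
                  linarith
              _ = 18 * qq ^ 9 := one_mul _
        _ = (t i : ℝ) * (18 * qq ^ 9) := by rw [sum_const, hE i hi, nsmul_eq_mul]
    have hprod : Real.exp (-((t i : ℝ) / 10)) ≤ ∏ j ∈ N, (1 - x j) := by
      calc Real.exp (-((t i : ℝ) / 10)) ≤ Real.exp (∑ j ∈ N, -(1.02 * x j)) := by
            apply Real.exp_le_exp.2
            rw [Finset.sum_neg_distrib, ← Finset.mul_sum]
            have h1 : (0 : ℝ) ≤ t i := by positivity
            have h2 : (t i : ℝ) * (18 * qq ^ 9) ≤ (t i : ℝ) * (18 * (2.72 / 512)) :=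
              mul_le_mul_of_nonneg_left (by linarith) h1
            have h3 : 1.02 * ∑ j ∈ N, x j ≤ (t i : ℝ) / 10 := by
              norm_num at h2 ⊢
              linarith
            linarith
        _ = ∏ j ∈ N, Real.exp (-(1.02 * x j)) := Real.exp_sum _ _
        _ ≤ ∏ j ∈ N, (1 - x j) := by
            apply Finset.prod_le_prod
            · intro j _; exact (Real.exp_pos _).le
            · intro j _; exact exp_le_sub (x j) (hx0 j) (hxs j)
    have hcardA : ((A i).card : ℝ) * 2 ^ (t i) ≤ 2 * 2 ^ n := by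
      have h1 : (A i).card ≤ (univ.filter (fun ω : Fin n → Bool => ∀ v ∈ E i, ω v = p i v)).card +
          (univ.filter (fun ω : Fin n → Bool => ∀ v ∈ E i, ω v = !p i v)).card := by
        refine le_trans (card_le_card ?_) (card_union_le _ _)
        intro ω hω
        simp only [A, mem_filter, mem_univ, true_and, mem_union] at hω ⊢
        exact hω
      have h2 := card_pat (E i) (p i)
      have h3 := card_pat (E i) (fun v => !p i v)
      rw [hE i hi] at h2 h3
      have h4 : (A i).card * 2 ^ (t i) ≤ 2 * 2 ^ n := by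
        calc (A i).card * 2 ^ (t i) ≤ (_ + _) * 2 ^ (t i) := Nat.mul_le_mul_right _ h1
          _ = 2 * 2 ^ n := by rw [add_mul, h2, h3]; ring
      exact_mod_cast h4
    have hcardω : (Fintype.card (Fin n → Bool) : ℝ) = 2 ^ n := by
      simp
    rw [hcardω]
    have hpos : (0 : ℝ) < 2 ^ (t i) := by positivity
    have h7 : ((A i).card : ℝ) ≤ 2 * 2 ^ n / 2 ^ (t i) := by
      rw [le_div_iff₀ hpos]
      exact hcardA
    refine h7.trans ?_
    have h8 : (2 : ℝ) / 2 ^ (t i) ≤ x i * ∏ j ∈ N, (1 - x j) := by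
      calc (2 : ℝ) / 2 ^ (t i) = x i * Real.exp (-((t i : ℝ) / 10)) := by
            rw [hxP i hi, mul_assoc, qq_pow, mul_one_div]
        _ ≤ _ := mul_le_mul_of_nonneg_left hprod (hx0 i)
    calc (2 : ℝ) * 2 ^ n / 2 ^ (t i) = 2 / 2 ^ (t i) * 2 ^ n := by ring
      _ ≤ _ := mul_le_mul_of_nonneg_right h8 (by positivity))
  refine ⟨ω, fun i hi h => hω i hi ?_⟩
  simp only [A, mem_filter, mem_univ, true_and]
  exact h

end Pool.Agent.TH288.BF
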