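import Mathlib
import Pool.Agent.H663R5.BF.Struct
import Pool.Agent.TH288.BF.Asym

/-!
# Beck-Fiala with budgets: each element splits a unit among the rows that contain it
-/

set_option autoImplicit false

namespace Pool.Agent.TH288.BF

open Finset H294BF Pool.Agent.H663R5.BF

variable {m n : ℕ}

/-- the twisted sign -/
def tw (a : ℤ) (b : Bool) : Bool := if a = 1 then b else !b

theorem tw_mul (a : ℤ) (b : Bool) (ha : |a| ≤ 1) (h0 : a ≠ 0) : a * sz b = sz (tw a b) := by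
  have h1 : a = 1 ∨ a = -1 := by
    rcases abs_le.1 ha with ⟨h1, h2⟩
    omega
  rcases h1 with rfl | rfl <;> cases b <;> simp [tw, sz]

theorem row_cast (A : Fin m → Fin n → ℤ) (y : Fin n → Bool) (j : Fin m) :
    row (fun j i => (A j i : ℝ)) y j = ((∑ i, A j i * sz (y i) : ℤ) : ℝ) := by
  unfold row
  push_cast
  exact Finset.sum_congr rfl fun i _ => by rw [← sz_cast]

theorem budget (A : Fin m → Fin n → ℤ) (hA : ∀ j i, |A j i| ≤ 1) (T : Fin m → ℕ)
    (u : Fin m → Fin n → ℝ) (hu0 : ∀ j i, 0 ≤ u j i)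
    (hu : ∀ i, ∑ j ∈ univ.filter (fun j => A j i ≠ 0), u j i ≤ 1)
    (hT : ∀ j, (∀ X : Finset (Fin n), (∀ i ∈ X, A j i ≠ 0) → T j < X.card →
        (1 : ℝ) < ∑ i ∈ X, u j i) ∨
      ((∀ i, A j i ≠ 0 → 1 / ((T j : ℝ) + 1) ≤ u j i) ∧
        (8 ≤ T j ∨ ∀ i, A j i ≠ 0 → ∑ k ∈ univ.filter (fun k => A k i ≠ 0), u k i < 1))) :
    ∃ x : Fin n → Bool, ∀ j, |∑ i, A j i * sz (x i)| ≤ (T j : ℤ) := by
  classical
  by_contra hcon
  push Not at hcon
  have hcon' : ∀ x : Fin n → Bool, ∃ j, ((T j : ℕ) : ℝ) < |row (fun j i => (A j i : ℝ)) x j| := by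
    intro x
    obtain ⟨j, hj⟩ := hcon x
    refine ⟨j, ?_⟩
    rw [row_cast, ← Int.cast_abs]
    exact_mod_cast hj
  obtain ⟨F, x, P, hF, hFP, hP, hall⟩ := exists_tight (fun j i => (A j i : ℝ))
    (fun j => (T j : ℝ)) (fun j => by positivity) hcon'
  set X : Fin m → Finset (Fin n) := fun j => F.filter (fun i => A j i ≠ 0) with hX
  set c : Fin m → ℤ := fun j => ∑ i ∈ univ.filter (fun i => i ∉ F), A j i * sz (x i) with hc
  have hfix : ∀ (y : Fin n → Bool), (∀ i, i ∉ F → y i = x i) → ∀ j,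
      ∑ i, A j i * sz (y i) = c j + ∑ i ∈ X j, sz (tw (A j i) (y i)) := by
    intro y hy j
    have h1 : ∑ i, A j i * sz (y i) = ∑ i ∈ univ.filter (fun i => i ∉ F), A j i * sz (y i) +
        ∑ i ∈ univ.filter (fun i => ¬ i ∉ F), A j i * sz (y i) :=
      (Finset.sum_filter_add_sum_filter_not univ (fun i => i ∉ F) _).symm
    rw [h1]
    congr 1
    · exact Finset.sum_congr rfl fun i hi => by rw [hy i (mem_filter.1 hi).2]
    · have h2 : univ.filter (fun i => ¬ i ∉ F) = F := by ext i; simp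
      rw [h2]
      have h3 : ∑ i ∈ F, A j i * sz (y i) = ∑ i ∈ X j, A j i * sz (y i) := by
        rw [hX]
        symm
        apply Finset.sum_subset (Finset.filter_subset _ _)
        intro i hi hi'
        have : A j i = 0 := by
          by_contra h0
          exact hi' (mem_filter.2 ⟨hi, h0⟩)
        rw [this, zero_mul]
      rw [h3]
      refine Finset.sum_congr rfl fun i hi => ?_
      exact tw_mul _ _ (hA j i) (mem_filter.1 hi).2
  have hup : ∀ (j : Fin m) (y : Fin n → Bool),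
      ∑ i ∈ X j, sz (tw (A j i) (y i)) ≤ (X j).card := fun j y =>
    sum_le (X j) (fun i => tw (A j i) (y i))
  have hdn : ∀ (j : Fin m) (y : Fin n → Bool),
      -((X j).card : ℤ) ≤ ∑ i ∈ X j, sz (tw (A j i) (y i)) := fun j y =>
    le_sum (X j) (fun i => tw (A j i) (y i))
  have hP1 : ∀ j ∈ P, (T j : ℤ) + 1 ≤ c j + (X j).card ∧ c j - (X j).card ≤ -((T j : ℤ) + 1) := by
    intro j hj
    obtain ⟨⟨y, hy, h1⟩, ⟨z, hz, h2⟩⟩ := hP j hj
    rw [row_cast, hfix y hy j] at h1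
    rw [row_cast, hfix z hz j] at h2
    have h1' : (T j : ℤ) < c j + ∑ i ∈ X j, sz (tw (A j i) (y i)) := by exact_mod_cast h1
    have h2' : c j + ∑ i ∈ X j, sz (tw (A j i) (z i)) < -(T j : ℤ) := by exact_mod_cast h2
    have h3 := hup j y
    have h4 := hdn j z
    constructor <;> omega
  have hlow : ∀ j ∈ P, T j + 1 ≤ (X j).card := by
    intro j hj
    have := hP1 j hj
    omega
  have hXne : ∀ j, ∀ i ∈ X j, A j i ≠ 0 := fun j i hi => (mem_filter.1 hi).2
  have hTp : ∀ j, (0 : ℝ) < (T j : ℝ) + 1 := fun j => by positivity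
  have hge : ∀ j ∈ P, (1 : ℝ) ≤ ∑ i ∈ X j, u j i := by
    intro j hj
    rcases hT j with h | ⟨h, -⟩
    · exact (h (X j) (hXne j) (hlow j hj)).le
    · have hTj := hTp j
      calc (1 : ℝ) = ((T j : ℝ) + 1) * (1 / ((T j : ℝ) + 1)) := by field_simp
        _ ≤ ((X j).card : ℝ) * (1 / ((T j : ℝ) + 1)) := by
            apply mul_le_mul_of_nonneg_right _ (by positivity)
            exact_mod_cast hlow j hj
        _ = ∑ i ∈ X j, 1 / ((T j : ℝ) + 1) := by rw [sum_const, nsmul_eq_mul]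
        _ ≤ ∑ i ∈ X j, u j i := sum_le_sum fun i hi => h i (hXne j i hi)
  have hswap : ∑ j ∈ P, ∑ i ∈ X j, u j i =
      ∑ i ∈ F, ∑ j ∈ P.filter (fun j => A j i ≠ 0), u j i := by
    have h1 : ∀ j, ∑ i ∈ X j, u j i = ∑ i ∈ F, if A j i ≠ 0 then u j i else 0 := by
      intro j
      rw [hX, Finset.sum_filter]
    simp only [h1]
    rw [Finset.sum_comm]
    exact sum_congr rfl fun i _ => by rw [← Finset.sum_filter]
  have hle0 : ∀ i, ∑ j ∈ P.filter (fun j => A j i ≠ 0), u j i ≤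
      ∑ j ∈ univ.filter (fun j => A j i ≠ 0), u j i := fun i =>
    Finset.sum_le_sum_of_subset_of_nonneg
      (Finset.filter_subset_filter _ (Finset.subset_univ P)) (fun j _ _ => hu0 j i)
  have hle1 : ∀ i ∈ F, ∑ j ∈ P.filter (fun j => A j i ≠ 0), u j i ≤ 1 := fun i _ =>
    (hle0 i).trans (hu i)
  have hupF : ∑ j ∈ P, ∑ i ∈ X j, u j i ≤ F.card := by
    rw [hswap]
    calc _ ≤ ∑ i ∈ F, (1 : ℝ) := sum_le_sum hle1
      _ = F.card := by simp
  have hFPr : (F.card : ℝ) ≤ P.card := by exact_mod_cast hFP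
  have hlowP : (P.card : ℝ) ≤ ∑ j ∈ P, ∑ i ∈ X j, u j i := by
    calc (P.card : ℝ) = ∑ j ∈ P, (1 : ℝ) := by simp
      _ ≤ _ := sum_le_sum hge
  -- equality for each row
  have heq1 : ∀ j ∈ P, ∑ i ∈ X j, u j i ≤ 1 := by
    intro j hj
    by_contra hlt
    push Not at hlt
    have h2 : ∑ j ∈ P, (1 : ℝ) < ∑ j ∈ P, ∑ i ∈ X j, u j i :=
      Finset.sum_lt_sum hge ⟨j, hj, hlt⟩
    rw [sum_const, nsmul_eq_mul, mul_one] at h2
    linarith
  -- equality for each column
  have heq2 : ∀ i ∈ F, 1 ≤ ∑ j ∈ univ.filter (fun j => A j i ≠ 0), u j i := by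
    intro i hi
    by_contra hlt
    push Not at hlt
    have h2 : ∑ i ∈ F, ∑ j ∈ P.filter (fun j => A j i ≠ 0), u j i < ∑ i ∈ F, (1 : ℝ) :=
      Finset.sum_lt_sum hle1 ⟨i, hi, lt_of_le_of_lt (hle0 i) hlt⟩
    rw [← hswap, sum_const, nsmul_eq_mul, mul_one] at h2
    linarith
  have halt : ∀ j ∈ P, 8 ≤ T j ∧ ∀ i, A j i ≠ 0 → 1 / ((T j : ℝ) + 1) ≤ u j i := by
    intro j hj
    rcases hT j with h | ⟨h, h8 | hs⟩
    · exact absurd (h (X j) (hXne j) (hlow j hj)) (not_lt.2 (heq1 j hj))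
    · exact ⟨h8, h⟩
    · have hpos : 0 < (X j).card := by have := hlow j hj; omega
      obtain ⟨i, hi⟩ := card_pos.1 hpos
      exact absurd (hs i (hXne j i hi)) (not_lt.2 (heq2 i (mem_filter.1 hi).1))
  have hcardX : ∀ j ∈ P, (X j).card = T j + 1 := by
    intro j hj
    refine le_antisymm ?_ (hlow j hj)
    have h1 : ((X j).card : ℝ) * (1 / ((T j : ℝ) + 1)) ≤ 1 := by
      refine le_trans ?_ (heq1 j hj)
      rw [← nsmul_eq_mul, ← sum_const]
      exact sum_le_sum fun i hi => (halt j hj).2 i (hXne j i hi)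
    rw [mul_one_div, div_le_one (hTp j)] at h1
    exact_mod_cast h1
  have hzero : ∀ j ∈ P, c j = 0 := by
    intro j hj
    have h1 := hP1 j hj
    have h2 := hcardX j hj
    omega
  have hmem : ∀ j v, v ∈ X j ↔ v ∈ F ∧ A j v ≠ 0 := fun j v => mem_filter
  obtain ⟨ω, hω⟩ := pat_asym P X (fun j => T j + 1) (fun j v => tw (A j v) true)
    (fun j hj => by have := (halt j hj).1; omega) hcardX
    (by
      intro v
      calc ∑ j ∈ P.filter (fun j => v ∈ X j), 1 / (((T j + 1 : ℕ)) : ℝ)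
          ≤ ∑ j ∈ P.filter (fun j => v ∈ X j), u j v := by
            refine sum_le_sum fun j hj => ?_
            rw [mem_filter] at hj
            push_cast
            exact (halt j hj.1).2 v ((hmem j v).1 hj.2).2
        _ ≤ ∑ j ∈ univ.filter (fun j => A j v ≠ 0), u j v := by
            apply Finset.sum_le_sum_of_subset_of_nonneg _ (fun j _ _ => hu0 j v)
            intro j hj
            rw [mem_filter] at hj ⊢
            exact ⟨mem_univ _, ((hmem j v).1 hj.2).2⟩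
        _ ≤ 1 := hu v)
  obtain ⟨j, hj, hbad⟩ := hall (fun i => if i ∈ F then ω i else x i) (fun i hi => by simp [hi])
  rw [row_cast, hfix _ (fun i hi => by simp [hi]) j, hzero j hj, zero_add, ← Int.cast_abs] at hbad
  have hbad' : (T j : ℤ) <
      |∑ i ∈ X j, sz (tw (A j i) (if i ∈ F then ω i else x i))| := by exact_mod_cast hbad
  have h1 : ∑ i ∈ X j, sz (tw (A j i) (if i ∈ F then ω i else x i)) =
      ∑ i ∈ X j, sz (tw (A j i) (ω i)) :=
    Finset.sum_congr rfl fun i hi => by rw [if_pos ((hmem j i).1 hi).1]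
  rw [h1] at hbad'
  have h2 := mono_of_abs (X j) (fun i => tw (A j i) (ω i)) (by rw [hcardX j hj]; push_cast; omega)
  apply hω j hj
  have htw : ∀ (a : ℤ) (b b' : Bool), tw a b = b' → b = tw a b' := by
    intro a b b' h
    unfold tw at h ⊢
    split_ifs at h ⊢ with ha
    · exact h
    · rw [← h]; simp
  have htwn : ∀ a : ℤ, tw a false = !tw a true := by
    intro a
    unfold tw
    split_ifs <;> rfl
  rcases h2 with h2 | h2
  · exact Or.inl fun v hv => htw _ _ _ (h2 v hv)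
  · exact Or.inr fun v hv => by rw [← htwn]; exact htw _ _ _ (h2 v hv)

end Pool.Agent.TH288.BF
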